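import Mathlib

namespace Pool.Agent.Results.MP_e83726_nt.Gaps

open ArithmeticFunction

noncomputable def h (n : ℕ) : ℝ := (sigma 1 n : ℝ) / n

noncomputable def H (n : ℕ) : ℝ := ∏ p ∈ n.primeFactors, (p : ℝ) / (p - 1)

noncomputable def g (n : ℕ) : ℝ := (H n - 2) * √n

def ND (n : ℕ) : Prop := Odd n ∧ 2 * n ≤ sigma 1 n

def B (n : ℕ) : Prop := ND n ∧ ∀ k < n, ND k → g k < g n

noncomputable def b (j : ℕ) : ℕ := Nat.nth B j

lemma fac (p : ℕ) (hp : p.Prime) : 1 + (1 : ℝ) / p ≤ p / (p - 1) := by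
  have : (2 : ℝ) ≤ p := by exact_mod_cast hp.two_le
  rw [le_div_iff₀ (by linarith)]
  field_simp; nlinarith

lemma one_le (p : ℕ) (hp : p.Prime) : (1 : ℝ) ≤ p / (p - 1) :=
  le_trans (by simp) (fac p hp)

lemma H_le (n : ℕ) (hn : n ≠ 0) : H n ≤ h n ^ 2 := by
  induction n using Nat.recOnPosPrimePosCoprime with
  | zero => simp at hn
  | one => simp [H, h]
  | prime_pow p k hp hk =>
    obtain ⟨k, rfl⟩ : ∃ j, k = j + 1 := ⟨k - 1, by omega⟩
    have h2 : (2 : ℝ) ≤ p := by exact_mod_cast hp.two_le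
    have h1 : 1 + (1 : ℝ) / p ≤ h (p ^ (k + 1)) := by
      rw [h, sigma_one_apply_prime_pow hp, Finset.sum_range_succ, Finset.sum_range_succ,
        le_div_iff₀ (by positivity)]
      push_cast
      have : (0 : ℝ) ≤ ∑ i ∈ Finset.range k, (p : ℝ) ^ i := by positivity
      have e : (1 + (1 : ℝ) / p) * p ^ (k + 1) = p ^ k + p ^ (k + 1) := by field_simp; ring
      linarith
    rw [H, Nat.primeFactors_prime_pow (by omega) hp, Finset.prod_singleton]
    refine le_trans ?_ (pow_le_pow_left₀ (by positivity) h1 2)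
    rw [div_le_iff₀ (by linarith)]
    field_simp; nlinarith
  | coprime a c ha hc hac iha ihc =>
    have e1 : H (a * c) = H a * H c := by
      rw [H, hac.primeFactors_mul, Finset.prod_union hac.disjoint_primeFactors]; rfl
    have e2 : h (a * c) = h a * h c := by
      rw [h, isMultiplicative_sigma.map_mul_of_coprime hac, h, h]; push_cast; ring
    rw [e1, e2, mul_pow]
    exact mul_le_mul (iha (by omega)) (ihc (by omega))
      (Finset.prod_nonneg fun p hp => zero_le_one.trans (one_le p (Nat.prime_of_mem_primeFactors hp)))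
      (by positivity)

lemma H_mono (a n : ℕ) (hn : n ≠ 0) (hd : a ∣ n) : H a ≤ H n :=
  Finset.prod_le_prod_of_subset_of_one_le (Nat.primeFactors_mono hd hn)
    (fun p hp => zero_le_one.trans (one_le p (Nat.prime_of_mem_primeFactors hp)))
    fun p hp _ => one_le p (Nat.prime_of_mem_primeFactors hp)

lemma sum_le (t : Finset ℕ) : 1 + ∑ p ∈ t, (1 : ℝ) / p ≤ ∏ p ∈ t, (1 + (1 : ℝ) / p) := by
  induction t using Finset.induction_on with
  | empty => simp
  | insert a t ha ih =>
    rw [Finset.sum_insert ha, Finset.prod_insert ha]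
    have h1 : (0 : ℝ) ≤ 1 / a := by positivity
    have h2 : (0 : ℝ) ≤ ∑ p ∈ t, (1 : ℝ) / p := by positivity
    nlinarith

lemma H_big (M : ℝ) : ∃ N, Odd N ∧ M ≤ H N := by
  by_contra hc
  push Not at hc
  refine Nat.Primes.not_summable_one_div (summable_of_sum_le (c := M + 1) (fun p => by positivity)
    fun s => ?_)
  set t := (s.image (fun p : Nat.Primes => (p : ℕ))).erase 2 with ht
  have hp : ∀ p ∈ t, p.Prime ∧ p ≠ 2 := fun p hp => by
    obtain ⟨h1, h2⟩ := Finset.mem_erase.1 hp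
    obtain ⟨q, -, rfl⟩ := Finset.mem_image.1 h2
    exact ⟨q.2, h1⟩
  have h1 := hc (∏ p ∈ t, p) (Finset.prod_induction _ Odd (fun _ _ => Odd.mul) odd_one
    fun p h => (hp p h).1.odd_of_ne_two (hp p h).2)
  rw [H, Nat.primeFactors_prod fun p h => (hp p h).1] at h1
  have h2 : 1 + ∑ p ∈ t, (1 : ℝ) / p ≤ ∏ p ∈ t, (p : ℝ) / (p - 1) :=
    (sum_le t).trans
      (Finset.prod_le_prod (fun p _ => by positivity) fun p h => fac p (hp p h).1)
  have h3 : ∑ p ∈ s, (1 : ℝ) / (p : ℕ) = ∑ p ∈ s.image (fun p : Nat.Primes => (p : ℕ)), (1 : ℝ) / p :=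
    (Finset.sum_image (f := fun p : ℕ => (1 : ℝ) / p) fun _ _ _ _ h => Subtype.ext h).symm
  have h4 : ∑ p ∈ s.image (fun p : Nat.Primes => (p : ℕ)), (1 : ℝ) / p ≤
      ∑ p ∈ insert 2 t, (1 : ℝ) / p :=
    Finset.sum_le_sum_of_subset_of_nonneg (Finset.subset_insert_iff.2 le_rfl)
      fun _ _ _ => by positivity
  rw [Finset.sum_insert (by simp [ht])] at h4
  rw [h3]
  norm_num only [Nat.cast_ofNat] at h4
  linarith

lemma nd (n : ℕ) (hn : Odd n) (h4 : 4 ≤ H n) : ND n := by
  have h0 : (0 : ℝ) < n := by exact_mod_cast hn.pos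
  have h1 := H_le n hn.pos.ne'
  have h2 : 2 ≤ h n := by
    have : 0 ≤ h n := by unfold h; positivity
    nlinarith
  rw [h, le_div_iff₀ h0] at h2
  exact ⟨hn, by exact_mod_cast h2⟩

lemma B_inf : {n | B n}.Infinite := by
  classical
  refine Set.infinite_of_forall_exists_gt fun T => ?_
  obtain ⟨M, hM⟩ := (Set.finite_le_nat T).image g |>.bddAbove
  obtain ⟨N, h1, h2⟩ := H_big (|M| + 4)
  have h3 : ∃ n, ND n ∧ M < g n := by
    refine ⟨N, nd N h1 (by linarith [abs_nonneg M]), ?_⟩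
    have : (1 : ℝ) ≤ √N := Real.one_le_sqrt.2 (by exact_mod_cast h1.pos)
    unfold g
    nlinarith [le_abs_self M, abs_nonneg M]
  obtain ⟨h4, h5⟩ := Nat.find_spec h3
  refine ⟨Nat.find h3, ⟨h4, fun k hk hk' => ?_⟩, ?_⟩
  · have := Nat.find_min h3 hk
    simp only [not_and, not_lt] at this
    exact (this hk').trans_lt h5
  · by_contra hc
    exact absurd (hM ⟨_, not_lt.1 hc, rfl⟩) (not_le.2 h5)

lemma exch (f : ℕ → ℝ) (h0 : ∀ i, 0 ≤ f i) (hf : Antitone f) (t : Finset ℕ) :
    ∏ i ∈ t, f i ≤ ∏ i ∈ Finset.range t.card, f i := by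
  induction t using Finset.induction_on_max with
  | empty => simp
  | insert a t ha ih =>
    have h1 : a ∉ t := fun h => lt_irrefl _ (ha a h)
    have h2 : t.card ≤ a := by
      simpa using Finset.card_le_card (show t ⊆ Finset.range a from fun x hx => by simpa using ha x hx)
    rw [Finset.prod_insert h1, Finset.card_insert_of_notMem h1, Finset.prod_range_succ, mul_comm]
    exact mul_le_mul ih (hf h2) (h0 _) (Finset.prod_nonneg fun i _ => h0 i)

noncomputable def q (i : ℕ) : ℕ := Nat.nth Nat.Prime (i + 1)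

lemma q_mono : StrictMono q := fun _ _ h =>
  Nat.nth_strictMono Nat.infinite_setOfPred_prime (Nat.succ_lt_succ h)

lemma q_prime (i : ℕ) : (q i).Prime := Nat.prime_nth_prime _

lemma q_ge (i : ℕ) : 3 ≤ q i := Nat.nth_prime_one_eq_three ▸ q_mono.monotone (Nat.zero_le i)

lemma q_surj (p : ℕ) (hp : p.Prime) (h2 : p ≠ 2) : ∃ i, q i = p := by
  have h := Nat.nth_count hp
  rcases e : Nat.count Nat.Prime p with _ | i <;> rw [e] at h
  · exact absurd (h.symm.trans Nat.nth_prime_zero_eq_two) h2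
  · exact ⟨i, h⟩

lemma q_le (i : ℕ) : q (i + 1) ≤ 2 * q i := by
  have := q_ge i
  obtain ⟨p, hp, h1, h2⟩ := Nat.exists_prime_lt_and_le_two_mul (q i) (by omega)
  obtain ⟨j, rfl⟩ := q_surj p hp (by omega)
  exact (q_mono.monotone (q_mono.lt_iff_lt.1 h1)).trans h2

noncomputable def P (m : ℕ) : ℕ := ∏ i ∈ Finset.range m, q i

noncomputable def HP (m : ℕ) : ℝ := ∏ i ∈ Finset.range m, (q i : ℝ) / (q i - 1)

lemma P_odd (m : ℕ) : Odd (P m) := Finset.prod_induction _ Odd (fun _ _ => Odd.mul) odd_one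
  fun i _ => (q_prime i).odd_of_ne_two (by have := q_ge i; omega)

lemma P_mono : StrictMono P := strictMono_nat_of_lt_succ fun m => by
  have := q_ge m
  have := (P_odd m).pos
  rw [show P (m + 1) = P m * q m from Finset.prod_range_succ _ _]; nlinarith

lemma H_P (m : ℕ) : H (P m) = HP m := by
  rw [H, P, ← Finset.prod_image (f := fun p => p) fun _ _ _ _ h => q_mono.injective h,
    Nat.primeFactors_prod (by simp [q_prime]), Finset.prod_image fun _ _ _ _ h => q_mono.injective h]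
  rfl

lemma HP_mono : Monotone HP := fun a c h => by
  rw [← H_P, ← H_P]
  exact H_mono _ _ (P_odd c).pos.ne' (Finset.prod_dvd_prod_of_subset _ _ _ (Finset.range_mono h))

lemma small (k : ℕ) (hk : Odd k) : ∃ r, P r ≤ k ∧ H k ≤ HP r := by
  classical
  obtain ⟨t, ht⟩ : ∃ t : Finset ℕ, t.image q = k.primeFactors := by
    refine ⟨k.primeFactors.preimage q q_mono.injective.injOn, ?_⟩
    rw [Finset.image_preimage, Finset.filter_true_of_mem]
    intro p hp
    refine q_surj p (Nat.prime_of_mem_primeFactors hp) ?_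
    rintro rfl
    exact (Nat.not_even_iff_odd.2 hk) (even_iff_two_dvd.2 (Nat.dvd_of_mem_primeFactors hp))
  have h3 : ∀ i, (3 : ℝ) ≤ q i := fun i => by exact_mod_cast q_ge i
  have hm : ∀ i j, i ≤ j → (q i : ℝ) ≤ q j := fun i j h => by exact_mod_cast q_mono.monotone h
  refine ⟨t.card, le_trans ?_ (Nat.le_of_dvd hk.pos (Nat.prod_primeFactors_dvd k)), ?_⟩
  · have h1 := exch (fun i => (q i : ℝ)⁻¹) (fun i => by positivity)
      (fun i j h => inv_anti₀ (by linarith [h3 i]) (hm i j h)) t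
    rw [Finset.prod_inv_distrib, Finset.prod_inv_distrib, inv_le_inv₀
      (Finset.prod_pos fun i _ => by linarith [h3 i])
      (Finset.prod_pos fun i _ => by linarith [h3 i])] at h1
    rw [← ht, Finset.prod_image fun _ _ _ _ h => q_mono.injective h, P]
    exact_mod_cast h1
  · rw [H, ← ht, Finset.prod_image fun _ _ _ _ h => q_mono.injective h]
    refine exch (fun i => (q i : ℝ) / (q i - 1)) (fun i => zero_le_one.trans (one_le _ (q_prime i)))
      (fun i j h => ?_) t
    have := hm i j h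
    have := h3 i
    rw [div_le_div_iff₀ (by linarith) (by linarith)]
    linarith

lemma jump (m k : ℕ) (h4 : 4 ≤ HP m) (hk : Odd k) (hlt : k < P (m + 1)) :
    g k + √(P (m + 1)) / q m ≤ g (P (m + 1)) := by
  obtain ⟨r, h1, h2⟩ := small k hk
  have h3 := h2.trans (HP_mono (Nat.lt_succ_iff.1 (P_mono.lt_iff_lt.1 (h1.trans_lt hlt))))
  have h5 : √(k : ℝ) ≤ √(P (m + 1)) := Real.sqrt_le_sqrt (by exact_mod_cast hlt.le)
  have h6 : HP m + 1 / q m ≤ HP (m + 1) := by
    rw [HP, HP, Finset.prod_range_succ, ← HP]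
    have := fac _ (q_prime m)
    have : (0 : ℝ) ≤ 1 / q m := by positivity
    nlinarith
  have h7 := Real.sqrt_nonneg (k : ℝ)
  rw [g, g, H_P, div_eq_mul_one_div]
  nlinarith

theorem result : {n | B n}.Infinite ∧ ∀ M : ℝ, ∃ j, M < g (b (j + 1)) - g (b j) := by
  classical
  refine ⟨B_inf, fun M => ?_⟩
  obtain ⟨N, h1, h2⟩ := H_big 4
  obtain ⟨r, -, h3⟩ := small N h1
  have hB : ∀ m, r ≤ m → B (P (m + 1)) := fun m hm => by
    have h4 := (h2.trans h3).trans (HP_mono hm)
    refine ⟨nd _ (P_odd _) (H_P _ ▸ h4.trans (HP_mono (Nat.le_succ m))), fun k hk hk' => ?_⟩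
    have := jump m k h4 hk'.1 hk
    have h5 : (0 : ℝ) < √(P (m + 1)) / q m := by
      have := (P_odd (m + 1)).pos
      have := q_ge m
      positivity
    linarith
  obtain ⟨T, hT⟩ := exists_nat_gt (2 * M ^ 2)
  set m := r + T
  have h4 := Nat.nth_count (hB (m + 1) (by omega))
  have h5 : Nat.count B (P (m + 1)) < Nat.count B (P (m + 1 + 1)) :=
    Nat.count_strict_mono (hB m (by omega)) (P_mono (by omega))
  obtain ⟨j, hj⟩ : ∃ j, Nat.count B (P (m + 1 + 1)) = j + 1 := ⟨_, (Nat.succ_pred_eq_of_pos (by omega)).symm⟩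
  rw [hj] at h4
  have h6 := Nat.nth_strictMono B_inf (Nat.lt_succ_self j)
  have h7 := jump (m + 1) (b j) ((h2.trans h3).trans (HP_mono (by omega)))
    (Nat.nth_mem_of_infinite B_inf j).1.1 (h4 ▸ h6)
  refine ⟨j, ?_⟩
  rw [show b (j + 1) = P (m + 1 + 1) from h4]
  have h8 : (0 : ℝ) < q (m + 1) := by have := q_ge (m + 1); positivity
  have h9 : M * q (m + 1) < √(P (m + 1 + 1)) := by
    refine Real.lt_sqrt_of_sq_lt ?_
    have a : (q (m + 1) : ℝ) ≤ 2 * q m := by exact_mod_cast q_le m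
    have c : (T : ℝ) ≤ P m := by exact_mod_cast le_trans (by omega) (P_mono.le_apply (x := m))
    rw [P, Finset.prod_range_succ, Finset.prod_range_succ, ← P]
    push_cast
    have d : M ^ 2 * q (m + 1) < P m * q m := by nlinarith [sq_nonneg M]
    nlinarith
  rw [← lt_div_iff₀ h8] at h9
  linarith

end Pool.Agent.Results.MP_e83726_nt.Gaps
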